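import Pool.Agent.H634R2.RedBlueDir

/-!
# The red-blue cut problem in digraphs is NP-hard
-/

namespace Pool.Agent.Results.MP_ac2b6c_lc.NPHard

open Pool.Agent.NPC Pool.Agent.NPC.H634R2

/-- The (global) red-blue cut problem in (simple) digraphs is `NP`-hard under polynomial-time
many-one reductions. -/
theorem result : NPHardP DirCut := npHard_DirCut

end Pool.Agent.Results.MP_ac2b6c_lc.NPHard
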